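import Mathlib
import Pool.Agent.H295R3.D6.Stmts

set_option autoImplicit false
set_option maxHeartbeats 4000000

open Finset Filter

namespace Pool.Agent.H603R3.D6

open Pool.Agent.H295R3.D6

/-- eventual inequalities -/
lemma ev (η δ M : ℝ) (hη : 0 < η) (hM : 1 ≤ M) : ∀ᶠ N : ℕ in atTop,
    6 * M * Real.log N < (N : ℝ) ^ (2 * η) ∧ 2 * M < (N : ℝ) ^ η ∧ 4 / δ ≤ (N : ℝ) ^ η ∧
      8 / δ ≤ Real.log N ∧ (2 : ℝ) ≤ N := by
  have hc : Tendsto (fun N : ℕ => (N : ℝ)) atTop atTop := tendsto_natCast_atTop_atTop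
  have h1 : Tendsto (fun N : ℕ => (N : ℝ) ^ η) atTop atTop := (tendsto_rpow_atTop hη).comp hc
  have h2 : Tendsto (fun N : ℕ => Real.log (N : ℝ)) atTop atTop := Real.tendsto_log_atTop.comp hc
  have h3 : ∀ᶠ x : ℝ in atTop, ‖Real.log x‖ ≤ (1 / (6 * M + 1)) * ‖x ^ (2 * η)‖ :=
    (isLittleO_log_rpow_atTop (by positivity : 0 < 2 * η)).bound (by positivity)
  filter_upwards [hc.eventually h3, h1.eventually_gt_atTop (2 * M), h1.eventually_ge_atTop (4 / δ),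
    h2.eventually_ge_atTop (8 / δ), hc.eventually_ge_atTop 2] with N a1 a2 a3 a4 a5
  refine ⟨?_, a2, a3, a4, a5⟩
  have hpos : 0 < (N : ℝ) ^ (2 * η) := Real.rpow_pos_of_pos (by linarith) _
  rw [Real.norm_of_nonneg hpos.le, Real.norm_of_nonneg (Real.log_nonneg (by linarith))] at a1
  calc 6 * M * Real.log N ≤ 6 * M * (1 / (6 * M + 1) * (N : ℝ) ^ (2 * η)) := by gcongr
    _ = (6 * M / (6 * M + 1)) * (N : ℝ) ^ (2 * η) := by ring
    _ < 1 * (N : ℝ) ^ (2 * η) := by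
        gcongr
        rw [div_lt_one (by positivity)]
        linarith
    _ = _ := one_mul _

lemma kp_ge_two {k j : ℕ} (hj : 1 ≤ j) (hjk : j < k) : 2 ≤ k / k.gcd j := by
  have hg : k.gcd j ≤ j := Nat.gcd_le_right _ hj
  have hg0 : 0 < k.gcd j := Nat.gcd_pos_of_pos_right _ hj
  obtain ⟨c, hc⟩ := Nat.gcd_dvd_left k j
  have hck : k / k.gcd j = c := Nat.div_eq_of_eq_mul_right hg0 hc
  rw [hck]
  by_contra hcon
  have hc1 : c ≤ 1 := by omega
  have : k ≤ k.gcd j := by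
    calc k = k.gcd j * c := hc
      _ ≤ k.gcd j * 1 := Nat.mul_le_mul_left _ hc1
      _ = _ := mul_one _
  omega

/-- the integers `m - x`, `1 ≤ x ≤ h`, `¬ k' ∣ x` -/
def TT (m h k' : ℕ) : Finset ℕ := ((Ioc 0 h).filter (fun x => ¬ k' ∣ x)).image (fun x => m - x)

lemma card_TT (m h k' : ℕ) (hm : h ≤ m) : (TT m h k').card = h - h / k' := by
  unfold TT
  rw [card_image_of_injOn]
  · have h1 := Nat.Ioc_filter_dvd_card_eq_div h k'
    have h2 := Finset.card_filter_add_card_filter_not (s := Ioc 0 h) (fun x => k' ∣ x)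
    rw [h1, Nat.card_Ioc] at h2
    omega
  · intro x hx y hy hxy
    simp only [coe_filter, mem_Ioc, Set.mem_ofPred_eq] at hx hy
    simp only at hxy
    omega

lemma mem_TT {m h k' n : ℕ} (hn : n ∈ TT m h k') : ∃ x, 1 ≤ x ∧ x ≤ h ∧ ¬ k' ∣ x ∧ n = m - x := by
  unfold TT at hn
  rw [mem_image] at hn
  obtain ⟨x, hx, rfl⟩ := hn
  rw [mem_filter, mem_Ioc] at hx
  exact ⟨x, by omega, hx.1.2, hx.2, rfl⟩

/-- bounds in terms of `L₁` -/
lemma max_le' {κ M : ℝ} (hκ : 0 < κ) (hM : M = max 1 (1 / κ)) {L1 L2 : ℕ} (h : κ * (L2 : ℝ) ≤ L1) :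
    ((max L1 L2 : ℕ) : ℝ) ≤ M * L1 := by
  rw [Nat.cast_max]
  apply max_le
  · have : 1 ≤ M := hM ▸ le_max_left _ _
    nlinarith [(Nat.cast_nonneg L1 : (0:ℝ) ≤ L1)]
  · have h1 : 1 / κ ≤ M := hM ▸ le_max_right _ _
    calc (L2 : ℝ) = 1 / κ * (κ * L2) := by field_simp
      _ ≤ 1 / κ * L1 := by gcongr
      _ ≤ M * L1 := by gcongr

theorem taskK1A : TaskK1A := by
  intro hC1 δ κ η hδ hδ1 hκ hη hηδ
  obtain ⟨M, hM⟩ : ∃ M : ℝ, M = max 1 (1 / κ) := ⟨_, rfl⟩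
  have hM1 : 1 ≤ M := hM ▸ le_max_left _ _
  filter_upwards [ev η δ M hη hM1] with N hN
  intro y m k p j b₂ b₃ b₄ B c h2 hκL hL
  obtain ⟨e1, e2, -, -, e5⟩ := hN
  have hNpos : (0 : ℝ) < N := by linarith
  set L1 := m - b₂ with hL1
  set L2 := b₃ - b₄ with hL2
  have hmax := max_le' hκ hM hκL
  have hlog : 0 ≤ Real.log N := Real.log_nonneg (by linarith)
  have hNη : 0 < (N : ℝ) ^ η := Real.rpow_pos_of_pos hNpos _
  have p2 : (N : ℝ) ^ (2 * η) = (N : ℝ) ^ η * (N : ℝ) ^ η := by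
    rw [← Real.rpow_add hNpos]; ring_nf
  have p3 : (N : ℝ) ^ (3 * η) = (N : ℝ) ^ η * (N : ℝ) ^ η * (N : ℝ) ^ η := by
    rw [← Real.rpow_add hNpos, ← Real.rpow_add hNpos]; ring_nf
  have hBlt : (B : ℝ) < (N : ℝ) ^ (3 * η) := by
    calc (B : ℝ) ≤ 6 * ((max L1 L2 : ℕ) : ℝ) * Real.log N := c.hB
      _ ≤ 6 * (M * L1) * Real.log N := by gcongr
      _ ≤ 6 * (M * (N : ℝ) ^ η) * Real.log N := by gcongr
      _ = (6 * M * Real.log N) * (N : ℝ) ^ η := by ring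
      _ < (N : ℝ) ^ (2 * η) * (N : ℝ) ^ η := by gcongr
      _ = _ := by rw [p2, p3]
  have hmxlt : ((2 * k * max L1 L2 : ℕ) : ℝ) < (N : ℝ) ^ (3 * η) := by
    push_cast
    rw [← Nat.cast_max]
    calc 2 * (k : ℝ) * ((max L1 L2 : ℕ) : ℝ) ≤ 2 * (N : ℝ) ^ η * (M * L1) := by
          gcongr
          exact c.kN
      _ ≤ 2 * (N : ℝ) ^ η * (M * (N : ℝ) ^ η) := by gcongr
      _ = (2 * M) * ((N : ℝ) ^ η * (N : ℝ) ^ η) := by ring
      _ < (N : ℝ) ^ η * ((N : ℝ) ^ η * (N : ℝ) ^ η) := by gcongr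
      _ = _ := by rw [p3]; ring
  have hk' := kp_ge_two c.j1 c.jk
  set k' := k / k.gcd j with hk'def
  have hm1 : L1 ≤ m := Nat.sub_le _ _
  refine ⟨by omega, c.hmN, L1 - 1, by omega, by omega, ?_⟩
  have hcard := card_TT m (L1 - 1) k' (by omega)
  have hsub : ((TT m (L1 - 1) k' : Finset ℕ) : Set ℕ) ⊆
      G η N ∩ {n | m - (L1 - 1) ≤ n ∧ n < m} := by
    intro n hn
    obtain ⟨x, hx1, hx2, hx3, rfl⟩ := mem_TT (mem_coe.1 hn)
    refine ⟨⟨by omega, ?_, ?_⟩, by omega, by omega⟩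
    · have := c.hmN; omega
    · intro q hq hqN
      refine hC1 m k p j b₂ b₃ b₄ B c.rel c.hm c.j1 c.jk c.hj1 c.hj2 x (by omega) hx3 q hq ?_ ?_
      · exact_mod_cast hBlt.trans hqN
      · exact_mod_cast hmxlt.trans hqN
  have hfin : (G η N ∩ {n | m - (L1 - 1) ≤ n ∧ n < m}).Finite :=
    (Set.finite_Iio m).subset fun n hn => hn.2.2
  have hle := Set.ncard_le_ncard hsub hfin
  rw [Set.ncard_coe_finset, hcard] at hle
  have hdiv : (L1 - 1) / k' ≤ (L1 - 1) / 2 := Nat.div_le_div_left hk' (by norm_num)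
  omega

lemma exists_pow (L : ℕ) (hL : 1 ≤ L) : ∃ i : ℕ, L ≤ 2 ^ i ∧ 2 ^ i < 2 * L := by
  refine ⟨Nat.clog 2 L, Nat.le_pow_clog (by norm_num) L, ?_⟩
  rcases Nat.eq_or_lt_of_le hL with h | h
  · rw [← h]; simp
  · have := Nat.pow_pred_clog_lt_self (b := 2) (by norm_num) (x := L) (by omega)
    have hpos : 0 < Nat.clog 2 L := Nat.clog_pos (by norm_num) (by omega)
    have hs : (Nat.clog 2 L).pred + 1 = Nat.clog 2 L := by rw [Nat.pred_eq_sub_one]; omega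
    calc 2 ^ Nat.clog 2 L = 2 * 2 ^ (Nat.clog 2 L).pred := by
          rw [← pow_succ', hs]
      _ < 2 * L := by omega

theorem taskK1B : TaskK1B := by
  intro hC1 hCHEB δ κ η hδ hδ1 hκ hη hηδ
  obtain ⟨M, hM⟩ : ∃ M : ℝ, M = max 1 (1 / κ) := ⟨_, rfl⟩
  have hM1 : 1 ≤ M := hM ▸ le_max_left _ _
  filter_upwards [ev η δ M hη hM1, hCHEB η hη (by linarith)] with N hN hCh
  intro y m k p j b₂ b₃ b₄ B c hy hκL hL
  obtain ⟨e1, e2, e3, e4, e5⟩ := hN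
  have hNpos : (0 : ℝ) < N := by linarith
  set L1 := m - b₂ with hL1
  set L2 := b₃ - b₄ with hL2
  have hmax := max_le' hκ hM hκL
  have hlog : 0 ≤ Real.log N := Real.log_nonneg (by linarith)
  have hNη : 0 < (N : ℝ) ^ η := Real.rpow_pos_of_pos hNpos _
  have p2 : (N : ℝ) ^ (2 * η) = (N : ℝ) ^ η * (N : ℝ) ^ η := by
    rw [← Real.rpow_add hNpos]; ring_nf
  have hL1pos : (0 : ℝ) < L1 := hNη.trans hL
  have hL1pos' : 1 ≤ L1 := by exact_mod_cast hL1pos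
  obtain ⟨i, hi1, hi2⟩ := exists_pow L1 hL1pos'
  have hb2m : b₂ < m := by omega
  have hNδ : (N : ℝ) ^ (1 - δ) * (N : ℝ) ^ δ = N := by
    rw [← Real.rpow_add hNpos]; simp
  have h1δ : 0 < (N : ℝ) ^ (1 - δ) := Real.rpow_pos_of_pos hNpos _
  have hN1 : (1 : ℝ) ≤ N := by linarith
  have hNη2 : (2 : ℝ) < (N : ℝ) ^ η := by linarith
  have hδ4 : (4 : ℝ) ≤ (N : ℝ) ^ δ := by
    have : (N : ℝ) ^ (2 * η) ≤ (N : ℝ) ^ δ := Real.rpow_le_rpow_of_exponent_le hN1 (by linarith)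
    nlinarith
  have hwN : ((2 ^ i : ℕ) : ℝ) ≤ (N : ℝ) ^ (1 - 10 * η) := by
    have h1 : ((2 ^ i : ℕ) : ℝ) ≤ 2 * L1 := by exact_mod_cast hi2.le
    calc ((2 ^ i : ℕ) : ℝ) ≤ 2 * L1 := h1
      _ ≤ (N : ℝ) ^ η * (N : ℝ) ^ (1 - δ) := by
          gcongr
          exact c.l1
      _ = (N : ℝ) ^ (η + (1 - δ)) := by rw [← Real.rpow_add hNpos]
      _ ≤ _ := Real.rpow_le_rpow_of_exponent_le hN1 (by linarith)
  have hwL : (L1 : ℝ) ≤ ((2 ^ i : ℕ) : ℝ) := by exact_mod_cast hi1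
  refine ⟨by omega, c.hmN, i, ?_, by exact_mod_cast hwN, ?_⟩
  · have : (N : ℝ) ^ η ≤ ((2 ^ i : ℕ) : ℝ) := hL.le.trans hwL
    exact_mod_cast this
  intro hreg
  -- `k'`
  have hk' := kp_ge_two c.j1 c.jk
  set k' := k / k.gcd j with hk'def
  have hk'dvd : k' ∣ k := Nat.div_dvd_of_dvd (Nat.gcd_dvd_left _ _)
  have hk'big : 8 / δ ≤ (k' : ℝ) := by
    obtain ⟨l, hl, hlk⟩ := Nat.exists_prime_and_dvd (show k' ≠ 1 by omega)
    have h1 : y < l := c.nice.2.1 l hl (hlk.trans hk'dvd)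
    have h2 : l ≤ k' := Nat.le_of_dvd (by omega) hlk
    have h3 : (y : ℝ) ≤ k' := by exact_mod_cast (h1.le.trans h2)
    linarith
  have hwN' : 2 ^ i ≤ N := by
    have h1 : (N : ℝ) ^ (1 - 10 * η) ≤ (N : ℝ) ^ (1 : ℝ) :=
      Real.rpow_le_rpow_of_exponent_le hN1 (by linarith)
    rw [Real.rpow_one] at h1
    exact_mod_cast hwN.trans h1
  have hmain := hCh (2 ^ i) m b₂ m (hL.le.trans hwL) hwN' hb2m hi1 hi2.le c.hmN (by omega)
    (by have : 0 < 2 ^ i := by positivity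
        omega) hreg (TT m (L1 - 1) k')
    (by
      intro n hn
      obtain ⟨x, hx1, hx2, hx3, rfl⟩ := mem_TT hn
      rw [mem_Ioc]
      omega) 0
    (by
      apply le_of_eq
      apply sum_eq_zero
      intro n hn
      obtain ⟨x, hx1, hx2, hx3, rfl⟩ := mem_TT hn
      apply sum_eq_zero
      intro q hq
      exfalso
      rw [mem_filter] at hq
      obtain ⟨hq1, hq2, hq3⟩ := hq
      have hqp := Nat.prime_of_mem_primeFactors hq1
      have hB' : (B : ℝ) < q := by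
        refine lt_of_le_of_lt ?_ hq2
        calc (B : ℝ) ≤ 6 * ((max L1 L2 : ℕ) : ℝ) * Real.log N := c.hB
          _ ≤ 6 * (M * L1) * Real.log N := by gcongr
          _ = L1 * (6 * M * Real.log N) := by ring
          _ ≤ ((2 ^ i : ℕ) : ℝ) * (N : ℝ) ^ (2 * η) := by gcongr
      have hm' : ((2 * k * max L1 L2 : ℕ) : ℝ) < q := by
        refine lt_of_le_of_lt ?_ hq2
        push_cast
        rw [← Nat.cast_max]
        calc 2 * (k : ℝ) * ((max L1 L2 : ℕ) : ℝ) ≤ 2 * (N : ℝ) ^ η * (M * L1) := by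
              gcongr
              exact c.kN
          _ = L1 * ((2 * M) * (N : ℝ) ^ η) := by ring
          _ ≤ ((2 ^ i : ℕ) : ℝ) * ((N : ℝ) ^ η * (N : ℝ) ^ η) := by gcongr
          _ = _ := by rw [p2]; push_cast; ring
      have hev := hC1 m k p j b₂ b₃ b₄ B c.rel c.hm c.j1 c.jk c.hj1 c.hj2 x (by omega) hx3 q hqp
        (by exact_mod_cast hB') (by exact_mod_cast hm')
      exact (Nat.not_odd_iff_even.2 hev) hq3)
  -- lower bound
  have hlow : ∀ n ∈ TT m (L1 - 1) k', Real.log N - 2 ≤ Real.log n := by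
    intro n hn
    obtain ⟨x, hx1, hx2, hx3, rfl⟩ := mem_TT hn
    have h1 : (N : ℝ) / 4 ≤ ((m - x : ℕ) : ℝ) := by
      have h2 : (N : ℝ) < 2 * m := by exact_mod_cast c.hNm
      have h3 : (x : ℝ) ≤ L1 := by exact_mod_cast (by omega : x ≤ L1)
      have h4 : (L1 : ℝ) ≤ N / 4 := by
        have := c.l1
        have h5 : (N : ℝ) ^ (1 - δ) * 4 ≤ N := by
          calc (N : ℝ) ^ (1 - δ) * 4 ≤ (N : ℝ) ^ (1 - δ) * (N : ℝ) ^ δ := by gcongr
            _ = N := hNδ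
        linarith
      rw [Nat.cast_sub (by omega)]
      linarith
    have h2 : Real.log (N / 4) ≤ Real.log ((m - x : ℕ) : ℝ) := Real.log_le_log (by positivity) h1
    rw [Real.log_div (by positivity) (by norm_num)] at h2
    have h3 : Real.log 4 ≤ 2 := by
      rw [show (4 : ℝ) = 2 ^ 2 by norm_num, Real.log_pow]
      have := Real.log_two_lt_d9
      push_cast
      linarith
    linarith
  have hsum : ((TT m (L1 - 1) k').card : ℝ) * (Real.log N - 2) ≤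
      ∑ n ∈ TT m (L1 - 1) k', Real.log n := by
    rw [← nsmul_eq_mul]
    exact card_nsmul_le_sum _ _ _ hlow
  rw [card_TT m (L1 - 1) k' (by omega)] at hsum
  have hcard : ((L1 : ℝ) - 1) * (1 - δ / 8) ≤ ((L1 - 1 - (L1 - 1) / k' : ℕ) : ℝ) := by
    rw [Nat.cast_sub (Nat.div_le_self _ _)]
    have h1 : (((L1 - 1) / k' : ℕ) : ℝ) ≤ ((L1 - 1 : ℕ) : ℝ) / k' := Nat.cast_div_le
    have h2 : ((L1 - 1 : ℕ) : ℝ) = (L1 : ℝ) - 1 := by
      rw [Nat.cast_sub hL1pos']; simp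
    rw [h2] at h1 ⊢
    have hk0 : (0 : ℝ) < k' := by
      have : 0 < 8 / δ := by positivity
      linarith
    have h3 : ((L1 : ℝ) - 1) / k' ≤ ((L1 : ℝ) - 1) * (δ / 8) := by
      rw [div_eq_mul_inv]
      have h4 : (k' : ℝ)⁻¹ ≤ δ / 8 := by
        rw [inv_le_comm₀ hk0 (by positivity)]
        rw [inv_div]
        exact hk'big
      have h5 : (0 : ℝ) ≤ (L1 : ℝ) - 1 := by
        have : (1 : ℝ) ≤ L1 := by exact_mod_cast hL1pos'
        linarith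
      gcongr
    linarith
  have hlog2 : (0 : ℝ) ≤ Real.log N - 2 := by
    have : (80 : ℝ) ≤ 8 / δ := by
      rw [le_div_iff₀ hδ]; linarith
    linarith
  have hL1log : Real.log (L1 : ℝ) ≤ (1 - δ) * Real.log N := by
    have := Real.log_le_log hL1pos c.l1
    rwa [Real.log_rpow hNpos] at this
  have hfinal : ((L1 : ℝ) - 1) * (1 - δ / 8) * (Real.log N - 2) ≤
      (L1 : ℝ) * ((1 - δ) * Real.log N) + 16 * η * L1 * Real.log N := by
    calc ((L1 : ℝ) - 1) * (1 - δ / 8) * (Real.log N - 2)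
        ≤ ((L1 - 1 - (L1 - 1) / k' : ℕ) : ℝ) * (Real.log N - 2) := by gcongr
      _ ≤ ∑ n ∈ TT m (L1 - 1) k', Real.log n := hsum
      _ ≤ (L1 : ℝ) * Real.log (L1 : ℝ) + 16 * η * L1 * Real.log N + 0 := hmain
      _ ≤ _ := by
        have : (L1 : ℝ) * Real.log (L1 : ℝ) ≤ L1 * ((1 - δ) * Real.log N) := by gcongr
        linarith
  -- contradiction
  have a1 : 1 ≤ δ / 4 * (L1 : ℝ) := by
    have h1 : 4 / δ ≤ (L1 : ℝ) := e3.trans hL.le
    rw [div_le_iff₀ hδ] at h1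
    linarith
  have a2 : 2 ≤ δ / 4 * Real.log N := by
    rw [div_le_iff₀ hδ] at e4
    linarith
  -- `(L1 - 1) ≥ L1 (1 - δ/4)`, `log N - 2 ≥ log N (1 - δ/4)`
  have b1 : (L1 : ℝ) * (1 - δ / 4) ≤ (L1 : ℝ) - 1 := by linarith
  have b2 : Real.log N * (1 - δ / 4) ≤ Real.log N - 2 := by linarith
  have hlogpos : 0 < Real.log N := by linarith [show (0:ℝ) < 8 / δ by positivity]
  have hX : 0 < (L1 : ℝ) * Real.log N := by positivity
  have c1 : ((L1 : ℝ) * (1 - δ / 4)) * (1 - δ / 8) * (Real.log N * (1 - δ / 4)) ≤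
      ((L1 : ℝ) - 1) * (1 - δ / 8) * (Real.log N - 2) := by
    have : 0 ≤ 1 - δ / 8 := by linarith
    have : 0 ≤ 1 - δ / 4 := by linarith
    have : 0 ≤ (L1 : ℝ) - 1 := by linarith [mul_nonneg hL1pos.le this]
    gcongr
  have c2 : (L1 : ℝ) * Real.log N * ((1 - δ / 4) * (1 - δ / 8) * (1 - δ / 4)) ≤
      (L1 : ℝ) * Real.log N * (1 - δ + 16 * η) := by
    calc _ = ((L1 : ℝ) * (1 - δ / 4)) * (1 - δ / 8) * (Real.log N * (1 - δ / 4)) := by ring
      _ ≤ _ := c1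
      _ ≤ _ := hfinal
      _ = _ := by ring
  have c3 := le_of_mul_le_mul_left c2 hX
  nlinarith [mul_pos hδ hδ, mul_pos (mul_pos hδ hδ) hδ]

end Pool.Agent.H603R3.D6
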